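import Pool.Agent.BEG.Stmts

/-!
# MGP of squad BEG: the isometry preserves the measure
-/

namespace Pool.Agent.BEG.H71

open Set Filter Topology MeasureTheory
open scoped InnerProductSpace ENNReal
open Pool.Agent.BE01 Pool.Agent.BEL Pool.Agent.BEF Pool.Agent.BEN Pool.Agent.BEH

noncomputable section

theorem gi_mv {d : ℕ} (g : (En d ≃ₗᵢ[ℝ] En d) × En d) (x : En d) : mv (gi g) (mv g x) = x := by
  simp [mv, gi, map_add]

theorem mv_gi {d : ℕ} (g : (En d ≃ₗᵢ[ℝ] En d) × En d) (x : En d) : mv g (mv (gi g) x) = x := by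
  simp [mv, gi, map_add]

theorem preim {d : ℕ} (Ω : Set (En d)) (g : (En d ≃ₗᵢ[ℝ] En d) × En d) (h : mv g '' Ω = Ω) :
    mv g ⁻¹' Ω = Ω := by
  ext x
  constructor
  · intro hx
    have hx' : mv g x ∈ mv g '' Ω := by rw [h]; exact hx
    obtain ⟨y, hy, hxy⟩ := hx'
    have : y = x := by rw [← gi_mv g y, hxy, gi_mv]
    rwa [← this]
  · intro hx
    have : mv g x ∈ mv g '' Ω := ⟨x, hx, rfl⟩
    rwa [h] at this

theorem mgp : MgpStmt := by
  intro d Ω g hΩ hg
  have hcont : Continuous (mv g) := by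
    unfold mv
    exact g.1.continuous.add continuous_const
  have hpre : mv g ⁻¹' Ω = Ω := preim Ω g hg
  have hmp : MeasurePreserving (mv g) (volume : Measure (En d)) volume := by
    have h1 := LinearIsometryEquiv.measurePreserving g.1
    have h2 : MeasurePreserving (fun x : En d => x + g.2) volume volume :=
      measurePreserving_add_right volume g.2
    exact h2.comp h1
  refine ⟨?_, ?_, gi_mv g, mv_gi g, hcont, hpre⟩
  · have := hmp.restrict_preimage hΩ.measurableSet
    rw [hpre] at this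
    exact this
  · ext x
    constructor
    · rintro ⟨y, hy, rfl⟩
      have : mv (gi g) y ∈ mv g ⁻¹' Ω := by
        rw [mem_preimage, mv_gi]; exact hy
      rwa [hpre] at this
    · intro hx
      exact ⟨mv g x, by rw [← hg]; exact ⟨x, hx, rfl⟩, gi_mv g x⟩

end

end Pool.Agent.BEG.H71
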